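import Mathlib

/-!
For every finite tree (and every finite connected graph of girth at least five) with at least two
vertices, `ir_b ≤ γ_b ≤ ir`.
-/

set_option autoImplicit false

namespace Pool.Agent.Results.MP_f42b44_co.BroadcastIrredundance

variable {V : Type*}

/-- `v` is in the private neighbourhood of `s` with respect to `S`: `v` lies in the closed
neighbourhood of `s` and in no closed neighbourhood of another member of `S` -/
def Private (G : SimpleGraph V) (S : Finset V) (s v : V) : Prop :=
  (v = s ∨ G.Adj s v) ∧ ∀ s' ∈ S, s' ≠ s → ¬ (v = s' ∨ G.Adj s' v)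

/-- irredundant vertex sets -/
def IrredundantSet (G : SimpleGraph V) (S : Finset V) : Prop :=
  ∀ s ∈ S, ∃ v, Private G S s v

/-- broadcasts: `f v` is at most the eccentricity of `v` -/
def IsBroadcast [Fintype V] (G : SimpleGraph V) (f : V → ℕ) : Prop :=
  ∀ v, f v ≤ Finset.univ.sup (fun u => G.dist u v)

/-- `u` hears the function `f` (from some vertex) -/
def Hears (G : SimpleGraph V) (f : V → ℕ) (u : V) : Prop :=
  ∃ v, 0 < f v ∧ G.dist u v ≤ f v

open Classical in
/-- irredundant broadcasts: every broadcasting vertex has a nonempty private boundary -/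
def IrredundantBroadcast [Fintype V] (G : SimpleGraph V) (f : V → ℕ) : Prop :=
  IsBroadcast G f ∧ ∀ v, 0 < f v →
    ∃ u, G.dist u v ≤ f v ∧ ¬ Hears G (Function.update f v (f v - 1)) u

/-- dominating broadcasts -/
def DominatingBroadcast [Fintype V] (G : SimpleGraph V) (f : V → ℕ) : Prop :=
  IsBroadcast G f ∧ ∀ u, Hears G f u

section

variable {G : SimpleGraph V}

theorem hears_mono {f g : V → ℕ} (h : f ≤ g) {u : V} (hu : Hears G f u) : Hears G g u := by
  obtain ⟨v, h1, h2⟩ := hu
  exact ⟨v, lt_of_lt_of_le h1 (h v), h2.trans (h v)⟩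

theorem dist_le_one (G : SimpleGraph V) {a b : V} (h : a = b ∨ G.Adj a b) : G.dist a b ≤ 1 := by
  rcases h with rfl | h
  · simp
  · exact le_of_eq (SimpleGraph.dist_eq_one_iff_adj.2 h)

/-- a family of balls covering the graph can be turned into a dominating broadcast -/
theorem exists_broadcast [Fintype V] [Nontrivial V] (hc : G.Connected) (h : V → ℕ)
    (hd : ∀ u, Hears G h u) :
    ∃ f, DominatingBroadcast G f ∧ ∑ v, f v ≤ ∑ v, h v := by
  refine ⟨fun v => min (h v) (Finset.univ.sup (fun u => G.dist u v)), ⟨?_, ?_⟩, ?_⟩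
  · intro v; exact min_le_right _ _
  · intro u
    obtain ⟨v, h1, h2⟩ := hd u
    refine ⟨v, ?_, ?_⟩
    · refine lt_min h1 ?_
      obtain ⟨w, hw⟩ := exists_ne v
      have h3 : 0 < G.dist w v := hc.pos_dist_of_ne hw
      exact lt_of_lt_of_le h3 (Finset.le_sup (f := fun u => G.dist u v) (Finset.mem_univ w))
    · exact le_min h2 (Finset.le_sup (f := fun u => G.dist u v) (Finset.mem_univ u))
  · exact Finset.sum_le_sum (fun v _ => min_le_left _ _)

/-- a minimum cost dominating broadcast is maximal irredundant -/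
theorem maximal_of_min [Fintype V] {f : V → ℕ} (hf : DominatingBroadcast G f)
    (hmin : ∀ g, DominatingBroadcast G g → ∑ v, f v ≤ ∑ v, g v) :
    Maximal (IrredundantBroadcast G) f := by
  classical
  refine ⟨⟨hf.1, ?_⟩, ?_⟩
  · intro v hv
    by_contra hcon
    push Not at hcon
    have hle : Function.update f v (f v - 1) ≤ f := by
      intro w
      by_cases hw : w = v
      · subst hw; simp
      · simp [Function.update_of_ne hw]
    have hdom : DominatingBroadcast G (Function.update f v (f v - 1)) := by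
      refine ⟨fun w => (hle w).trans (hf.1 w), ?_⟩
      intro u
      by_cases hu : G.dist u v ≤ f v
      · convert hcon u hu
      · obtain ⟨w, h1, h2⟩ := hf.2 u
        have hw : w ≠ v := by rintro rfl; exact hu h2
        refine ⟨w, ?_, ?_⟩
        · rw [Function.update_of_ne hw]; exact h1
        · rw [Function.update_of_ne hw]; exact h2
    have h1 := hmin _ hdom
    have h2 : ∑ w, Function.update f v (f v - 1) w < ∑ w, f w := by
      apply Finset.sum_lt_sum
      · intro w _; exact hle w
      · exact ⟨v, Finset.mem_univ v, by simp; omega⟩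
    omega
  · intro g hg hfg
    by_contra hcon
    have : ∃ w, f w < g w := by
      by_contra h
      push Not at h
      exact hcon h
    obtain ⟨w, hw⟩ := this
    obtain ⟨u, _, hu⟩ := hg.2 w (by omega)
    apply hu
    refine hears_mono ?_ (hf.2 u)
    intro z
    by_cases hz : z = w
    · subst hz; simp; omega
    · simp [Function.update_of_ne hz]; exact hfg z

/-- greedy removal of groups that can be served by one large ball -/
theorem greedy [Fintype V] [DecidableEq V] (n : ℕ) : ∀ Y : Finset V, Y.card = n →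
    ∃ (Y' : Finset V) (h : V → ℕ), Y' ⊆ Y ∧ (∑ v, h v) + Y'.card ≤ Y.card ∧
      (∀ k ∈ Y, k ∉ Y' → ∀ w, G.dist k w ≤ 2 → Hears G h w) ∧
      (∀ K ⊆ Y', K.Nonempty → ∀ c, ¬ ∀ k ∈ K, ∀ w, G.dist k w ≤ 2 → G.dist w c ≤ K.card) := by
  induction n using Nat.strong_induction_on with
  | _ n ih =>
    intro Y hY
    by_cases hK : ∃ K ⊆ Y, K.Nonempty ∧ ∃ c, ∀ k ∈ K, ∀ w, G.dist k w ≤ 2 → G.dist w c ≤ K.card
    · obtain ⟨K, hKY, hKn, c, hc⟩ := hK
      have hcard : (Y \ K).card + K.card = Y.card := by
        rw [Finset.card_sdiff_of_subset hKY]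
        have := Finset.card_le_card hKY
        omega
      have hKpos : 0 < K.card := hKn.card_pos
      obtain ⟨Y', h, h1, h2, h3, h4⟩ := ih (Y \ K).card (by omega) (Y \ K) rfl
      refine ⟨Y', h + Pi.single c K.card, h1.trans Finset.sdiff_subset, ?_, ?_, h4⟩
      · have : ∑ v, (h + Pi.single c K.card : V → ℕ) v = ∑ v, h v + K.card := by
          simp [Finset.sum_add_distrib]
        rw [this]; omega
      · intro k hk hk' w hw
        by_cases hkK : k ∈ K
        · refine ⟨c, ?_, ?_⟩
          · simp only [Pi.add_apply, Pi.single_eq_same]; omega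
          · have := hc k hkK w hw
            simp only [Pi.add_apply, Pi.single_eq_same]; omega
        · refine hears_mono ?_ (h3 k (by simp [hk, hkK]) hk' w hw)
          intro v; simp
    · push Not at hK
      refine ⟨Y, 0, Finset.Subset.refl _, by simp, ?_, ?_⟩
      · intro k hk hk'; exact absurd hk hk'
      · intro K hK1 hK2 c hcon
        obtain ⟨k, hk, w, hw1, hw2⟩ := hK K hK1 hK2 c
        exact absurd (hcon k hk w hw1) (by omega)

/-- from a maximal irredundant set to a covering by balls -/
theorem main_step [Fintype V] (hc : G.Connected)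
    (h3 : ∀ a b c, G.Adj a b → G.Adj b c → G.Adj a c → False)
    (h4 : ∀ x a u b, G.Adj x a → G.Adj a u → G.Adj x b → G.Adj b u → x ≠ u → a = b)
    (S : Finset V) (hS : Maximal (IrredundantSet G) S) :
    ∃ h : V → ℕ, (∀ u, Hears G h u) ∧ ∑ v, h v ≤ S.card := by
  classical
  obtain ⟨hirr, hmax⟩ := hS
  -- bad vertices
  let Bad : V → V → Prop := fun x u => (∀ s ∈ S, ¬ (u = s ∨ G.Adj s u)) ∧
    ∀ a, Private G S x a → (a = u ∨ G.Adj u a)
  have key1 : ∀ x ∈ S, ∀ u, Bad x u → ∀ a, Private G S x a → G.Adj x a ∧ G.Adj u a := by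
    intro x hx u hu a ha
    have hax : a ≠ x := by
      rintro rfl
      rcases hu.2 a ha with h | h
      · exact hu.1 a hx (Or.inl h.symm)
      · exact hu.1 a hx (Or.inr h.symm)
    have h5 : G.Adj x a := by
      rcases ha.1 with h | h
      · exact absurd h hax
      · exact h
    refine ⟨h5, ?_⟩
    rcases hu.2 a ha with h | h
    · subst h
      exact absurd (Or.inr h5) (hu.1 x hx)
    · exact h
  have key2 : ∀ x ∈ S, ∀ u, Bad x u → ∀ a b, Private G S x a → Private G S x b → a = b := by
    intro x hx u hu a b ha hb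
    have ha' := key1 x hx u hu a ha
    have hb' := key1 x hx u hu b hb
    refine h4 x a u b ha'.1 ha'.2.symm hb'.1 hb'.2.symm ?_
    rintro rfl
    exact hu.1 x hx (Or.inl rfl)
  have key3 : ∀ x ∈ S, ∀ u, Bad x u → ∃ y ∈ S, G.Adj x y := by
    intro x hx u hu
    by_contra hcon
    push Not at hcon
    have : Private G S x x := by
      refine ⟨Or.inl rfl, ?_⟩
      intro s' hs' hne h
      rcases h with h | h
      · exact hne h.symm
      · exact hcon s' hs' h.symm
    exact (G.irrefl (key1 x hx u hu x this).1)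
  -- the new positions
  choose! p hp using hirr
  let t : V → V := fun x => if ∃ u, Bad x u then p x else x
  obtain ⟨Y, h, hY1, hY2, hY3, hY4⟩ := greedy (G := G) S.card S rfl
  refine ⟨h + ∑ x ∈ Y, Pi.single (t x) 1, ?_, ?_⟩
  swap
  · have : ∑ v, (h + ∑ x ∈ Y, Pi.single (t x) 1 : V → ℕ) v = ∑ v, h v + Y.card := by
      simp only [Pi.add_apply, Finset.sum_apply, Finset.sum_add_distrib]
      rw [Finset.sum_comm]
      simp
    rw [this]; exact hY2
  -- the two ways of hearing
  have hear1 : ∀ k ∈ S, k ∉ Y → ∀ w, G.dist k w ≤ 2 →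
      Hears G (h + ∑ x ∈ Y, Pi.single (t x) 1 : V → ℕ) w := by
    intro k hk hk' w hw
    refine hears_mono ?_ (hY3 k hk hk' w hw)
    intro v; simp
  have hear2 : ∀ x ∈ Y, ∀ w, (w = t x ∨ G.Adj w (t x)) →
      Hears G (h + ∑ x ∈ Y, Pi.single (t x) 1 : V → ℕ) w := by
    intro x hx w hw
    have h5 : 1 ≤ (h + ∑ x ∈ Y, Pi.single (t x) 1 : V → ℕ) (t x) := by
      simp only [Pi.add_apply, Finset.sum_apply]
      have : (Pi.single (t x) 1 : V → ℕ) (t x) ≤ ∑ c ∈ Y, (Pi.single (t c) 1 : V → ℕ) (t x) :=
        Finset.single_le_sum (f := fun c => (Pi.single (t c) 1 : V → ℕ) (t x))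
          (fun _ _ => Nat.zero_le _) hx
      rw [Pi.single_eq_same] at this
      omega
    exact ⟨t x, by omega, (dist_le_one G hw).trans h5⟩
  intro v
  by_cases hv : ∀ s ∈ S, ¬ (v = s ∨ G.Adj s v)
  · -- `v` is not dominated
    have hvS : v ∉ S := fun h => hv v h (Or.inl rfl)
    have hnot : ¬ IrredundantSet G (insert v S) := by
      intro hcon
      have := hmax hcon (Finset.subset_insert v S)
      exact hvS (this (Finset.mem_insert_self v S))
    have : ∃ x ∈ S, Bad x v := by
      by_contra hcon
      push Not at hcon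
      apply hnot
      intro s hs
      rcases Finset.mem_insert.1 hs with rfl | hs
      · refine ⟨s, Or.inl rfl, ?_⟩
        intro s' hs' hne
        exact hv s' (Finset.mem_of_mem_insert_of_ne hs' hne)
      · have h5 := hcon s hs
        have h6 : ¬ ∀ a, Private G S s a → (a = v ∨ G.Adj v a) := fun h7 => h5 ⟨hv, h7⟩
        push Not at h6
        obtain ⟨a, ha, ha1, ha2⟩ := h6
        refine ⟨a, ha.1, ?_⟩
        intro s' hs' hne
        rcases Finset.mem_insert.1 hs' with rfl | hs'
        · rintro (h8 | h8)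
          · exact ha1 h8
          · exact ha2 h8
        · exact ha.2 s' hs' hne
    obtain ⟨x, hx, hxv⟩ := this
    have hpx := key1 x hx v hxv (p x) (hp x hx)
    by_cases hxY : x ∈ Y
    · refine hear2 x hxY v (Or.inr ?_)
      have : t x = p x := if_pos ⟨v, hxv⟩
      rw [this]; exact hpx.2
    · refine hear1 x hx hxY v ?_
      have h5 := hc.dist_triangle (u := x) (v := p x) (w := v)
      have h6 := dist_le_one G (Or.inr hpx.1)
      have h7 := dist_le_one G (Or.inr hpx.2.symm)
      omega
  · push Not at hv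
    obtain ⟨s, hs, hsv⟩ := hv
    by_contra hnh
    have a1 : ∀ s ∈ S, (v = s ∨ G.Adj s v) → s ∈ Y := by
      intro s hs hsv
      by_contra hcon
      apply hnh
      refine hear1 s hs hcon v ?_
      have : G.dist s v ≤ 1 := by
        rcases hsv with h | h
        · exact dist_le_one G (Or.inl h.symm)
        · exact dist_le_one G (Or.inr h)
      omega
    have a2 : ∀ s ∈ S, (v = s ∨ G.Adj s v) → ∃ u, Bad s u := by
      intro s hs hsv
      by_contra hcon
      apply hnh
      refine hear2 s (a1 s hs hsv) v ?_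
      have : t s = s := if_neg hcon
      rw [this]
      rcases hsv with h | h
      · exact Or.inl h
      · exact Or.inr h.symm
    have a3 : v ∉ S := by
      intro hvS
      obtain ⟨u, hu⟩ := a2 v hvS (Or.inl rfl)
      apply hnh
      refine hear2 v (a1 v hvS (Or.inl rfl)) v (Or.inr ?_)
      have : t v = p v := if_pos ⟨u, hu⟩
      rw [this]
      exact (key1 v hvS u hu (p v) (hp v hvS)).1
    have hsv' : G.Adj s v := by
      rcases hsv with h | h
      · exact absurd (h ▸ hs) a3
      · exact h
    obtain ⟨u, hu⟩ := a2 s hs (Or.inr hsv')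
    have a4 : ¬ Private G S s v := by
      intro hpriv
      apply hnh
      refine hear2 s (a1 s hs (Or.inr hsv')) v (Or.inl ?_)
      have : t s = p s := if_pos ⟨u, hu⟩
      rw [this]
      exact key2 s hs u hu v (p s) hpriv (hp s hs)
    have : ∃ s' ∈ S, s' ≠ s ∧ G.Adj s' v := by
      by_contra hcon
      push Not at hcon
      apply a4
      refine ⟨Or.inr hsv', ?_⟩
      intro s' hs' hne h
      rcases h with h | h
      · exact a3 (h ▸ hs')
      · exact hcon s' hs' hne h
    obtain ⟨s', hs', hne, hsv''⟩ := this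
    obtain ⟨u', hu'⟩ := a2 s' hs' (Or.inr hsv'')
    obtain ⟨y, hy, hsy⟩ := key3 s hs u hu
    obtain ⟨y', hy', hsy'⟩ := key3 s' hs' u' hu'
    have a5 : ∀ a b, b ∈ S → G.Adj a v → G.Adj a b → G.dist b v ≤ 2 := by
      intro a b _ hav hab
      have h5 := hc.dist_triangle (u := b) (v := a) (w := v)
      have h6 := dist_le_one G (Or.inr hab.symm)
      have h7 := dist_le_one G (Or.inr hav)
      omega
    have hyY : y ∈ Y := by
      by_contra hcon
      exact hnh (hear1 y hy hcon v (a5 s y hy hsv' hsy))
    have hyY' : y' ∈ Y := by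
      by_contra hcon
      exact hnh (hear1 y' hy' hcon v (a5 s' y' hy' hsv'' hsy'))
    have n1 : s ≠ s' := fun h => hne h.symm
    have n2 : s ≠ y := hsy.ne
    have n3 : s' ≠ y' := hsy'.ne
    have n4 : s ≠ y' := by
      rintro rfl
      exact h3 s' s v hsy' hsv' hsv''
    have n5 : s' ≠ y := by
      rintro rfl
      exact h3 s s' v hsy hsv'' hsv'
    have n6 : y ≠ y' := by
      rintro rfl
      have := h4 s v s' y hsv' hsv''.symm hsy hsy'.symm n1
      exact a3 (this ▸ hy)
    have hcard : ({s, s', y, y'} : Finset V).card = 4 := by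
      rw [Finset.card_insert_of_notMem, Finset.card_insert_of_notMem,
        Finset.card_insert_of_notMem, Finset.card_singleton]
      · simpa using n6
      · simp only [Finset.mem_insert, Finset.mem_singleton, not_or]
        exact ⟨n5, n3⟩
      · simp only [Finset.mem_insert, Finset.mem_singleton, not_or]
        exact ⟨n1, n2, n4⟩
    refine hY4 {s, s', y, y'} ?_ ⟨s, by simp⟩ v ?_
    · intro z hz
      simp only [Finset.mem_insert, Finset.mem_singleton] at hz
      rcases hz with rfl | rfl | rfl | rfl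
      · exact a1 z hs (Or.inr hsv')
      · exact a1 z hs' (Or.inr hsv'')
      · exact hyY
      · exact hyY'
    · intro k hk w hw
      rw [hcard]
      have h5 := hc.dist_triangle (u := w) (v := k) (w := v)
      rw [G.dist_comm] at hw
      have h6 : G.dist k v ≤ 2 := by
        simp only [Finset.mem_insert, Finset.mem_singleton] at hk
        rcases hk with rfl | rfl | rfl | rfl
        · exact (dist_le_one G (Or.inr hsv')).trans (by norm_num)
        · exact (dist_le_one G (Or.inr hsv'')).trans (by norm_num)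
        · exact a5 s _ hy hsv' hsy
        · exact a5 s' _ hy' hsv'' hsy'
      omega

theorem no_triangle (hg : 5 ≤ G.egirth) : ∀ a b c, G.Adj a b → G.Adj b c → G.Adj a c → False := by
  intro a b c hab hbc hac
  rw [SimpleGraph.le_egirth] at hg
  have hcyc : (SimpleGraph.Walk.cons hab (SimpleGraph.Walk.cons hbc
      (SimpleGraph.Walk.cons hac.symm SimpleGraph.Walk.nil))).IsCycle := by
    have h1 := hab.ne
    have h2 := hbc.ne
    have h3 := hac.ne
    simp [SimpleGraph.Walk.isCycle_def, SimpleGraph.Walk.isTrail_def, h1, h2, h3, h1.symm,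
      h3.symm]
  have := hg a _ hcyc
  simp at this
  norm_num at this

theorem no_square (hg : 5 ≤ G.egirth) : ∀ x a u b, G.Adj x a → G.Adj a u → G.Adj x b →
    G.Adj b u → x ≠ u → a = b := by
  intro x a u b hxa hau hxb hbu hne
  by_contra hab
  rw [SimpleGraph.le_egirth] at hg
  have hcyc : (SimpleGraph.Walk.cons hxa (SimpleGraph.Walk.cons hau
      (SimpleGraph.Walk.cons hbu.symm (SimpleGraph.Walk.cons hxb.symm
        SimpleGraph.Walk.nil)))).IsCycle := by
    have h1 := hxa.ne
    have h2 := hau.ne
    have h3 := hxb.ne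
    have h4 := hbu.ne
    simp [SimpleGraph.Walk.isCycle_def, SimpleGraph.Walk.isTrail_def, h1, h2, h3, h1.symm,
      h3.symm, h4.symm, hne, hne.symm, hab]
  have := hg x _ hcyc
  simp at this
  norm_num at this

end

/-- For every finite tree with at least two vertices (and more generally every finite connected
graph of girth at least five), the minimum cost of a maximal irredundant broadcast is at most the
minimum cost of a dominating broadcast, which is at most the minimum cardinality of a maximal
irredundant set. -/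
theorem result {V : Type*} [Fintype V] [Nontrivial V] (G : SimpleGraph V)
    (hG : G.IsTree ∨ (G.Connected ∧ 5 ≤ G.egirth)) :
    ∃ irb γb ir : ℕ,
      IsLeast {c | ∃ f : V → ℕ, Maximal (IrredundantBroadcast G) f ∧ ∑ v, f v = c} irb ∧
      IsLeast {c | ∃ f : V → ℕ, DominatingBroadcast G f ∧ ∑ v, f v = c} γb ∧
      IsLeast {c | ∃ S : Finset V, Maximal (IrredundantSet G) S ∧ S.card = c} ir ∧
      irb ≤ γb ∧ γb ≤ ir := by
  classical
  have hc : G.Connected := by
    rcases hG with h | h
    · exact h.1
    · exact h.1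
  have hg : 5 ≤ G.egirth := by
    rcases hG with h | h
    · rw [SimpleGraph.egirth_eq_top.2 h.2]; exact le_top
    · exact h.2
  -- a maximal irredundant set exists
  have e0 : ∃ S : Finset V, Maximal (IrredundantSet G) S := by
    have h0 : IrredundantSet G (∅ : Finset V) := fun s hs => absurd hs (Finset.notMem_empty s)
    have hfin : {S : Finset V | IrredundantSet G S}.Finite := Set.toFinite _
    obtain ⟨S, _, hS⟩ := hfin.exists_le_maximal h0
    exact ⟨S, hS⟩
  have lir : ∃ k, IsLeast {c | ∃ S : Finset V, Maximal (IrredundantSet G) S ∧ S.card = c} k := by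
    obtain ⟨S, hS⟩ := e0
    have hne : {c | ∃ S : Finset V, Maximal (IrredundantSet G) S ∧ S.card = c}.Nonempty :=
      ⟨S.card, S, hS, rfl⟩
    exact ⟨sInf _, Nat.sInf_mem hne, fun c hc => Nat.sInf_le hc⟩
  obtain ⟨ir, hir⟩ := lir
  obtain ⟨S, hS, hSc⟩ := hir.1
  obtain ⟨h, hh1, hh2⟩ := main_step hc (no_triangle hg) (no_square hg) S hS
  obtain ⟨f0, hf0, hf0'⟩ := exists_broadcast hc h hh1
  have lγ : ∃ k, IsLeast {c | ∃ f : V → ℕ, DominatingBroadcast G f ∧ ∑ v, f v = c} k := by
    have hne : {c | ∃ f : V → ℕ, DominatingBroadcast G f ∧ ∑ v, f v = c}.Nonempty :=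
      ⟨_, f0, hf0, rfl⟩
    exact ⟨sInf _, Nat.sInf_mem hne, fun c hc => Nat.sInf_le hc⟩
  obtain ⟨γb, hγb⟩ := lγ
  obtain ⟨f1, hf1, hf1c⟩ := hγb.1
  have hmax : Maximal (IrredundantBroadcast G) f1 := by
    apply maximal_of_min hf1
    intro g hgd
    rw [hf1c]
    exact hγb.2 ⟨g, hgd, rfl⟩
  have lirb : ∃ k, IsLeast {c | ∃ f : V → ℕ, Maximal (IrredundantBroadcast G) f ∧
      ∑ v, f v = c} k := by
    have hne : {c | ∃ f : V → ℕ, Maximal (IrredundantBroadcast G) f ∧ ∑ v, f v = c}.Nonempty :=
      ⟨_, f1, hmax, rfl⟩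
    exact ⟨sInf _, Nat.sInf_mem hne, fun c hc => Nat.sInf_le hc⟩
  obtain ⟨irb, hirb⟩ := lirb
  refine ⟨irb, γb, ir, hirb, hγb, hir, ?_, ?_⟩
  · exact hirb.2 ⟨f1, hmax, hf1c⟩
  · have := hγb.2 ⟨f0, hf0, rfl⟩
    omega

end Pool.Agent.Results.MP_f42b44_co.BroadcastIrredundance
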